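import Mathlib

/-!
# Elementary acyclicity with homotopies, and the transfer principle

`C 0 = 0`, `C 1 → C 2 → … → C (k + 1)`; every element `r` of a weakly regular list `rs` is
homotopic to zero at `C 1, …, C k`.  Then the complex is exact at `C (i + 1)` for `i < k`,
`i < rs.length`, and the cokernel of `C k → C (k + 1)` has depth at least `rs.length - k`
(only the first two steps are used).
-/

set_option autoImplicit false

namespace LicciH

open RingTheory.Sequence Pointwise

universe u v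

variable {R : Type u} [CommRing R]

theorem mk_eq_zero_iff {M : Type v} [AddCommGroup M] [Module R M] (r : R) (x : M) :
    (Submodule.Quotient.mk x : QuotSMulTop r M) = 0 ↔ ∃ y, x = r • y := by
  rw [Submodule.Quotient.mk_eq_zero, Submodule.mem_smul_pointwise_iff_exists]
  constructor
  · rintro ⟨y, _, hy⟩
    exact ⟨y, hy.symm⟩
  · rintro ⟨y, hy⟩
    exact ⟨y, trivial, hy.symm⟩

/-- A complex (indexed by `ℕ`, with `C 0 = 0`) with homotopies up to `C k`. -/
structure Htpy (rs : List R) (k : ℕ) (C : ℕ → Type v) [∀ i, AddCommGroup (C i)]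
    [∀ i, Module R (C i)] (d : ∀ i, C i →ₗ[R] C (i + 1)) : Prop where
  zero : Subsingleton (C 0)
  dd : ∀ i x, d (i + 1) (d i x) = 0
  reg : ∀ i, IsWeaklyRegular (C i) rs
  hom : ∀ r ∈ rs, ∃ s : ∀ i, C (i + 1) →ₗ[R] C i,
    ∀ i, i < k → ∀ x, d i (s i x) + s (i + 1) (d (i + 1) x) = r • x

section

variable {C : ℕ → Type v} [∀ i, AddCommGroup (C i)] [∀ i, Module R (C i)]
  {d : ∀ i, C i →ₗ[R] C (i + 1)} {r : R} {rs : List R} {k : ℕ}

/-- the quotient complex modulo `r` -/
theorem Htpy.quot (h : Htpy (r :: rs) k C d) :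
    Htpy rs k (fun i => QuotSMulTop r (C i)) (fun i => QuotSMulTop.map r (d i)) where
  zero := by
    have := h.zero
    constructor
    intro a b
    obtain ⟨a, rfl⟩ := Submodule.Quotient.mk_surjective _ a
    obtain ⟨b, rfl⟩ := Submodule.Quotient.mk_surjective _ b
    rw [Subsingleton.elim a b]
  dd := by
    intro i x
    obtain ⟨x, rfl⟩ := Submodule.Quotient.mk_surjective _ x
    rw [QuotSMulTop.map_apply_mk, QuotSMulTop.map_apply_mk, h.dd]; rfl
  reg := fun i => ((isWeaklyRegular_cons_iff (C i) r rs).1 (h.reg i)).2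
  hom := by
    intro a ha
    obtain ⟨s, hs⟩ := h.hom a (List.mem_cons_of_mem _ ha)
    refine ⟨fun i => QuotSMulTop.map r (s i), fun i hi x => ?_⟩
    obtain ⟨x, rfl⟩ := Submodule.Quotient.mk_surjective _ x
    rw [QuotSMulTop.map_apply_mk, QuotSMulTop.map_apply_mk, QuotSMulTop.map_apply_mk,
      QuotSMulTop.map_apply_mk, ← Submodule.Quotient.mk_add, hs i hi]; rfl

/-- Exactness. -/
theorem acyc (rs : List R) : ∀ (C : ℕ → Type v) [∀ i, AddCommGroup (C i)]
    [∀ i, Module R (C i)] (d : ∀ i, C i →ₗ[R] C (i + 1)) (k : ℕ), Htpy rs k C d →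
    ∀ i, i < k → i < rs.length → ∀ x, d (i + 1) x = 0 → ∃ y, d i y = x := by
  induction rs with
  | nil => intro C _ _ d k _ i _ hi; simp at hi
  | cons r rs ih =>
    intro C _ _ d k h i hik hi x hx
    have hr : ∀ i, IsSMulRegular (C i) r := fun i =>
      ((isWeaklyRegular_cons_iff (C i) r rs).1 (h.reg i)).1
    obtain ⟨s, hs⟩ := h.hom r (by simp)
    have h1 : r • x = d i (s i x) := by rw [← hs i hik x, hx, map_zero, add_zero]
    cases i with
    | zero =>
      have := h.zero
      refine ⟨0, hr 1 ?_⟩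
      show r • d 0 0 = r • x
      rw [h1, Subsingleton.elim (s 0 x) 0, map_zero, smul_zero]
    | succ i =>
      have h2 : QuotSMulTop.map r (d (i + 1)) (Submodule.Quotient.mk (s (i + 1) x)) = 0 := by
        rw [QuotSMulTop.map_apply_mk, ← h1, mk_eq_zero_iff]
        exact ⟨x, rfl⟩
      obtain ⟨w, hw⟩ := ih _ _ k h.quot i (by omega) (by simpa using hi)
        (Submodule.Quotient.mk (s (i + 1) x)) h2
      obtain ⟨w, rfl⟩ := Submodule.Quotient.mk_surjective _ w
      rw [QuotSMulTop.map_apply_mk] at hw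
      have h4 : (Submodule.Quotient.mk (s (i + 1) x - d i w) :
          QuotSMulTop r (C (i + 1))) = 0 := by
        rw [Submodule.Quotient.mk_sub, hw, sub_self]
      obtain ⟨y, hy⟩ := (mk_eq_zero_iff r _).1 h4
      refine ⟨y, hr (i + 2) ?_⟩
      show r • d (i + 1) y = r • x
      rw [h1, ← map_smul, ← hy, map_sub, h.dd, sub_zero]

/-- `r` is regular on the cokernel of `C k → C (k + 1)`. -/
theorem Htpy.torsionfree (h : Htpy (r :: rs) k C d) (hk : k ≤ rs.length) {z : C (k + 1)}
    {w : C k} (hz : r • z = d k w) : ∃ v, d k v = z := by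
  have hr : ∀ i, IsSMulRegular (C i) r := fun i =>
    ((isWeaklyRegular_cons_iff (C i) r rs).1 (h.reg i)).1
  cases k with
  | zero =>
    have := h.zero
    refine ⟨0, hr 1 ?_⟩
    show r • d 0 0 = r • z
    rw [hz, Subsingleton.elim w 0, map_zero, smul_zero]
  | succ i =>
    have h2 : QuotSMulTop.map r (d (i + 1)) (Submodule.Quotient.mk w) = 0 := by
      rw [QuotSMulTop.map_apply_mk, ← hz, mk_eq_zero_iff]
      exact ⟨z, rfl⟩
    obtain ⟨v, hv⟩ := acyc rs _ _ _ h.quot i (by omega) (by omega) (Submodule.Quotient.mk w) h2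
    obtain ⟨v, rfl⟩ := Submodule.Quotient.mk_surjective _ v
    rw [QuotSMulTop.map_apply_mk, ← sub_eq_zero, ← Submodule.Quotient.mk_sub,
      mk_eq_zero_iff] at hv
    obtain ⟨y, hy⟩ := hv
    refine ⟨-y, hr (i + 2) ?_⟩
    show r • d (i + 1) (-y) = r • z
    rw [hz, map_neg, smul_neg, ← map_smul, ← hy, map_sub, h.dd, zero_sub, neg_neg]

/-- `r, r'` is a regular sequence on the cokernel of `C k → C (k + 1)`. -/
theorem Htpy.regular_two {r' : R} (h : Htpy (r :: r' :: rs) k C d) (hk : k ≤ rs.length)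
    {z z' : C (k + 1)} {w : C k} (hz : r' • z - r • z' = d k w) :
    ∃ v y, z = d k v + r • y := by
  have h1 : r' • (Submodule.Quotient.mk z : QuotSMulTop r (C (k + 1))) =
      QuotSMulTop.map r (d k) (Submodule.Quotient.mk w) := by
    rw [QuotSMulTop.map_apply_mk, ← Submodule.Quotient.mk_smul, ← sub_eq_zero,
      ← Submodule.Quotient.mk_sub, mk_eq_zero_iff]
    exact ⟨z', by rw [← hz]; abel⟩
  obtain ⟨v, hv⟩ := h.quot.torsionfree hk h1
  obtain ⟨v, rfl⟩ := Submodule.Quotient.mk_surjective _ v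
  rw [QuotSMulTop.map_apply_mk, ← sub_eq_zero, ← Submodule.Quotient.mk_sub,
    mk_eq_zero_iff] at hv
  obtain ⟨y, hy⟩ := hv
  refine ⟨v, -y, ?_⟩
  rw [smul_neg, ← hy]
  abel

/-- The transfer principle, uniqueness: an element of `C (k + 1)` some regular multiple of
which is a boundary is a boundary. -/
theorem Htpy.boundary_of_smul (h : Htpy (r :: rs) k C d) (hk : k ≤ rs.length) {z : C (k + 1)}
    (hz : ∃ w, d k w = r • z) : ∃ v, d k v = z := by
  obtain ⟨w, hw⟩ := hz
  exact h.torsionfree hk hw.symm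

/-- The transfer principle, existence: `η` in a module `H` on which `r` is regular, such that
`r η` and `r' η` are images of cocycles, is the image of a cocycle. -/
theorem Htpy.exists_cocycle {r' : R} (h : Htpy (r :: r' :: rs) k C d) (hk : k ≤ rs.length)
    {H : Type*} [AddCommGroup H] [Module R H] (hH : IsSMulRegular H r)
    (ε : LinearMap.ker (d (k + 1)) →ₗ[R] H)
    (hker : ∀ z : LinearMap.ker (d (k + 1)), ε z = 0 → ∃ w, d k w = r • (z : C (k + 1)))
    (hbd : ∀ w, ε ⟨d k w, by rw [LinearMap.mem_ker, h.dd]⟩ = 0)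
    (η : H) (h1 : ∃ z, ε z = r • η) (h2 : ∃ z, ε z = r' • η) : ∃ z, ε z = η := by
  obtain ⟨z1, hz1⟩ := h1
  obtain ⟨z2, hz2⟩ := h2
  have hr : ∀ i, IsSMulRegular (C i) r := fun i =>
    ((isWeaklyRegular_cons_iff (C i) r _).1 (h.reg i)).1
  obtain ⟨w, hw⟩ := hker (r' • z1 - r • z2) (by
    rw [map_sub, map_smul, map_smul, hz1, hz2, smul_smul, smul_smul, mul_comm, sub_self])
  obtain ⟨v, hv⟩ := h.torsionfree (by simp; omega) hw.symm
  obtain ⟨u, y, hy⟩ := h.regular_two hk (z := (z1 : C (k + 1))) (z' := (z2 : C (k + 1)))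
    (w := v) (by rw [hv]; simp)
  have hy0 : d (k + 1) y = 0 := by
    apply hr (k + 2)
    show r • d (k + 1) y = r • 0
    have h3 := z1.2
    rw [LinearMap.mem_ker, hy, map_add, h.dd, zero_add, map_smul] at h3
    rw [h3, smul_zero]
  refine ⟨⟨y, LinearMap.mem_ker.2 hy0⟩, hH ?_⟩
  show r • ε _ = r • η
  rw [← hz1, ← map_smul]
  have h4 : z1 = ⟨d k u, by rw [LinearMap.mem_ker, h.dd]⟩ + r • ⟨y, LinearMap.mem_ker.2 hy0⟩ := by
    apply Subtype.ext
    rw [hy]
    rfl
  rw [h4, map_add, hbd, zero_add]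

end

end LicciH
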